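import Pool.Agent.Helper82.RD.Defs

/-!
# Project RD (MP_86d903_lc), module PER: permanence
-/

set_option autoImplicit false

open Finset MP86d903

namespace Pool.Agent.Helper82.RD

variable {ι V : Type} [DecidableEq ι] [Fintype ι] [Fintype V] [DecidableEq V]
  {vs ng : ι → Finset V} {q : ℕ}

omit [Fintype ι] [Fintype V] in
/-- a pair clause of `A` through `x ∉ A'` is a pair clause of `A'` -/
private theorem mPER_pair {A A' : Finset V} (hCL' : CL vs q A') (hAA : A ⊆ A') {x : V}
    (hx : x ∉ A') {d : ι} (hd : (vs d \ A).card = 2) (hxd : x ∈ vs d) :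
    vs d \ A' = vs d \ A := by
  apply Finset.eq_of_subset_of_card_le (Finset.sdiff_subset_sdiff (le_refl _) hAA)
  rw [hd]
  apply hCL'.two
  intro h
  exact hx (h hxd)

theorem mPER {A A' : Finset V} (hCL : CL vs q A) (hCL' : CL vs q A') (hAP : AP vs A)
    (hAP' : AP vs A') (hAA : A ⊆ A') {b : V → ZMod 2} (hb : ∀ x, x ∉ A' → bs vs A b x = 0) :
    b ∈ PM vs A' := by
  rw [mem_PM]
  intro x hx
  have hxA : x ∉ A := fun h => hx (hAA h)
  have hbx := hb x hx
  by_cases hc : ∃ c, (vs c \ A').card = 2 ∧ x ∈ vs c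
  · obtain ⟨c, hc2, hxc⟩ := hc
    have hatt' : att vs A' x = vs c \ A' := hAP'.pai c x hc2 (Finset.mem_sdiff.2 ⟨hxc, hx⟩)
    by_cases h2 : (vs c \ A).card = 2
    · have hatt : att vs A x = vs c \ A := hAP.pai c x h2 (Finset.mem_sdiff.2 ⟨hxc, hxA⟩)
      unfold bs at hbx ⊢
      rw [hatt', mPER_pair hCL' hAA hx h2 hxc, ← hatt]
      exact hbx
    · unfold bs
      rw [hatt']
      apply Finset.sum_eq_zero
      intro y hy
      obtain ⟨hyc, hyA'⟩ := Finset.mem_sdiff.1 hy
      have hyA : y ∉ A := fun h => hyA' (hAA h)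
      have hatty : att vs A y = {y} := by
        apply hAP.sin y hyA
        intro d hd hyd
        have hdc : c ≠ d := by
          rintro rfl
          exact h2 hd
        have h3 := mPER_pair hCL' hAA hyA' hd hyd
        have h4 : (vs d \ A').card = 2 := by rw [h3, hd]
        have hcA' : ¬ vs c ⊆ A' := fun h => hyA' (h hyc)
        have hdA' : ¬ vs d ⊆ A' := fun h => hyA' (h hyd)
        have h5 := hCL'.int c d hdc hcA' hdA'
        rw [hc2, h4] at h5
        have h6 : 0 < ((vs c ∩ vs d) \ A').card :=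
          Finset.card_pos.2 ⟨y, Finset.mem_sdiff.2 ⟨Finset.mem_inter.2 ⟨hyc, hyd⟩, hyA'⟩⟩
        omega
      have hby := hb y hyA'
      unfold bs at hby
      rw [hatty, Finset.sum_singleton] at hby
      exact hby
  · push Not at hc
    have hatt' : att vs A' x = {x} := hAP'.sin x hx hc
    have hatt : att vs A x = {x} := by
      apply hAP.sin x hxA
      intro d hd hxd
      apply hc d _ hxd
      rw [mPER_pair hCL' hAA hx hd hxd, hd]
    unfold bs at hbx ⊢
    rw [hatt', ← hatt]
    exact hbx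

end Pool.Agent.Helper82.RD
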